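import Pool.Agent.TH462.SC.Stm
import Pool.Agent.TH455.SC4.NoTD

set_option autoImplicit false

namespace Pool.Agent.TH455.SC4

theorem s2' : Pool.Agent.TH462.SC.S2 := fun V E _ _ _ _ src dst h1 h2 h3 h4 =>
  s2 V E src dst h1 h2 h3 h4

end Pool.Agent.TH455.SC4
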